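import Mathlib
import Pool.Agent.Lib.MP_369a91_nt.Ranges

/-!
Fundamental lemma of the sieve (Brun-Hooley form) with precision `1 ± ε` for the primes
in `(2 ^ 2 ^ t0, 2 ^ 2 ^ (t0 + n)]`.
-/

namespace Pool.Agent.Lib.MP_c6d112_nt.DO

open Finset
open Pool.Agent.Lib.MP_369a91_nt (ev Uw Lw PiU PiU_succ es tr es_le bonferroni es_nonneg
  mean_lower sieve_ineq abs_Uw_le abs_Lw_le support_Uw support_Lw ev_Uw_succ ev_zero tr_succ
  one_sub_ge_exp)

/-- the primes in `(2 ^ 2 ^ t0, 2 ^ 2 ^ (t0 + n)]` -/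
def PP (t0 n : ℕ) : Finset ℕ := (Finset.Ioc (2 ^ 2 ^ t0) (2 ^ 2 ^ (t0 + n))).filter Nat.Prime

/-- the blocks -/
def Bl (t0 i : ℕ) : Finset ℕ :=
  (Finset.Ioc (2 ^ 2 ^ (t0 + i)) (2 ^ 2 ^ (t0 + i + 1))).filter Nat.Prime

theorem two_pow_mono {a b : ℕ} (h : a ≤ b) : 2 ^ 2 ^ a ≤ 2 ^ 2 ^ b :=
  Nat.pow_le_pow_right (by norm_num) (Nat.pow_le_pow_right (by norm_num) h)

theorem PiU_Bl (t0 n : ℕ) : PiU (Bl t0) n = PP t0 n := by
  classical
  induction n with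
  | zero => simp [PiU, PP]
  | succ n ih =>
    rw [PiU_succ, ih]
    ext q
    simp only [PP, Bl, Finset.mem_union, Finset.mem_filter, Finset.mem_Ioc]
    have h1 := two_pow_mono (show t0 ≤ t0 + n by omega)
    have h2 := two_pow_mono (show t0 + n ≤ t0 + n + 1 by omega)
    rw [show t0 + (n + 1) = t0 + n + 1 by ring]
    constructor
    · rintro (⟨⟨a1, a2⟩, a3⟩ | ⟨⟨a1, a2⟩, a3⟩)
      · exact ⟨⟨a1, by omega⟩, a3⟩
      · exact ⟨⟨by omega, a2⟩, a3⟩
    · rintro ⟨⟨a1, a2⟩, a3⟩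
      by_cases h : q ≤ 2 ^ 2 ^ (t0 + n)
      · left; exact ⟨⟨a1, h⟩, a3⟩
      · right; exact ⟨⟨by omega, a2⟩, a3⟩

theorem Bl_disjoint (t0 n : ℕ) : Disjoint (PiU (Bl t0) n) (Bl t0 n) := by
  classical
  rw [PiU_Bl, Finset.disjoint_left]
  intro q hq hq'
  simp only [PP, Bl, Finset.mem_filter, Finset.mem_Ioc] at hq hq'
  omega

theorem sum_Bl_le (t0 i : ℕ) (ht : 0 < t0) : ∑ q ∈ Bl t0 i, (1 : ℝ) / q ≤ 3 := by
  have h := Pool.Agent.Lib.MP_369a91_nt.sum_Pr_le (t0 + i)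
  have e : Pool.Agent.Lib.MP_369a91_nt.Pr (t0 + i) = Bl t0 i := by
    unfold Pool.Agent.Lib.MP_369a91_nt.Pr Bl Pool.Agent.Lib.MP_369a91_nt.Bd
    rw [if_neg (by omega), if_neg (by omega)]
  rwa [e] at h

/-- truncation levels -/
def rr (R n i : ℕ) : ℕ := 2 * (n - i) + 2 * R

/-- the upper and lower weights -/
noncomputable def UU (t0 R n : ℕ) : Finset ℕ → ℝ := Uw (Bl t0) (rr R n) n
noncomputable def LL (t0 R n : ℕ) : Finset ℕ → ℝ := Lw (Bl t0) (rr R n) n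

theorem even_rr (R n i : ℕ) : Even (rr R n i) := by
  unfold rr
  exact (even_two_mul _).add (even_two_mul _)

theorem abs_UU (t0 R n : ℕ) (D : Finset ℕ) : |UU t0 R n D| ≤ 1 := abs_Uw_le _ _ _ _
theorem abs_LL (t0 R n : ℕ) (D : Finset ℕ) : |LL t0 R n D| ≤ 1 := abs_Lw_le _ _ _ _

/-- pointwise sieve inequality -/
theorem pointwise (t0 R n : ℕ) (h : ℕ → ℝ) (h0 : ∀ q ∈ PP t0 n, 0 ≤ h q)
    (h1 : ∀ q ∈ PP t0 n, h q ≤ 1) :
    ev (LL t0 R n) (PP t0 n) h ≤ ∏ q ∈ PP t0 n, (1 - h q) ∧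
    ∏ q ∈ PP t0 n, (1 - h q) ≤ ev (UU t0 R n) (PP t0 n) h := by
  classical
  set g : ℕ → ℝ := fun q => if q ∈ PP t0 n then h q else 0 with hg
  have hgv : ∀ w : Finset ℕ → ℝ, ev w (PP t0 n) h = ev w (PP t0 n) g := by
    intro w
    unfold ev
    apply Finset.sum_congr rfl
    intro D hD
    rw [Finset.mem_powerset] at hD
    congr 1
    apply Finset.prod_congr rfl
    intro q hq
    simp [hg, hD hq]
  have hgp : ∏ q ∈ PP t0 n, (1 - h q) = ∏ q ∈ PP t0 n, (1 - g q) := by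
    apply Finset.prod_congr rfl
    intro q hq
    simp [hg, hq]
  have hs := sieve_ineq (Bl t0) (rr R n) (Bl_disjoint t0) (even_rr R n) g
    (fun q => by
      simp only [hg]
      split_ifs with hq
      · exact h0 q hq
      · exact le_rfl)
    (fun q => by
      simp only [hg]
      split_ifs with hq
      · exact h1 q hq
      · exact zero_le_one) n
  rw [PiU_Bl] at hs
  rw [hgv, hgv, hgp]
  exact hs

theorem sum_pow_level (t0 R n : ℕ) :
    ∑ i ∈ Finset.range n, 2 ^ (t0 + i + 1) * (rr R n i + 1) ≤ (4 * R + 10) * 2 ^ (t0 + n) := by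
  have h2 : ∀ n : ℕ, ∑ i ∈ Finset.range n, 2 ^ (i + 1) * (rr R n i + 1) ≤
      (4 * R + 10) * 2 ^ n := by
    intro n
    induction n with
    | zero => simp
    | succ n ih =>
      rw [Finset.sum_range_succ]
      have h3 : ∑ i ∈ Finset.range n, 2 ^ (i + 1) * (rr R (n + 1) i + 1) =
          ∑ i ∈ Finset.range n, 2 ^ (i + 1) * (rr R n i + 1) +
          2 * ∑ i ∈ Finset.range n, 2 ^ (i + 1) := by
        rw [Finset.mul_sum, ← Finset.sum_add_distrib]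
        apply Finset.sum_congr rfl
        intro i hi
        rw [Finset.mem_range] at hi
        have h4 : rr R (n + 1) i = rr R n i + 2 := by unfold rr; omega
        rw [h4]; ring
      have h4 : ∀ t : ℕ, ∑ i ∈ Finset.range t, 2 ^ (i + 1) + 2 = 2 ^ (t + 1) := by
        intro t
        induction t with
        | zero => simp
        | succ t ih =>
          rw [Finset.sum_range_succ, pow_succ 2 (t + 1)]
          omega
      have h5 := h4 n
      have h6 : rr R (n + 1) n + 1 = 2 * R + 3 := by unfold rr; omega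
      rw [h3, h6]
      have h7 : (2 : ℕ) ^ (n + 1) = 2 * 2 ^ n := by ring
      rw [h7] at h5 ⊢
      nlinarith
  calc ∑ i ∈ Finset.range n, 2 ^ (t0 + i + 1) * (rr R n i + 1) =
      2 ^ t0 * ∑ i ∈ Finset.range n, 2 ^ (i + 1) * (rr R n i + 1) := by
        rw [Finset.mul_sum]
        apply Finset.sum_congr rfl
        intro i _
        rw [show t0 + i + 1 = t0 + (i + 1) by ring, pow_add 2 t0 (i + 1)]; ring
    _ ≤ 2 ^ t0 * ((4 * R + 10) * 2 ^ n) := Nat.mul_le_mul_left _ (h2 n)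
    _ = (4 * R + 10) * 2 ^ (t0 + n) := by rw [pow_add]; ring

theorem prod_level (t0 R n : ℕ) :
    ∏ i ∈ Finset.range n, (2 ^ 2 ^ (t0 + i + 1)) ^ (rr R n i + 1) ≤
      (2 ^ 2 ^ (t0 + n)) ^ (4 * R + 10) := by
  have h1 : ∏ i ∈ Finset.range n, (2 ^ 2 ^ (t0 + i + 1)) ^ (rr R n i + 1) =
      2 ^ (∑ i ∈ Finset.range n, 2 ^ (t0 + i + 1) * (rr R n i + 1)) := by
    rw [← Finset.prod_pow_eq_pow_sum]
    apply Finset.prod_congr rfl
    intro i _
    rw [← pow_mul]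
  rw [h1, ← pow_mul]
  apply Nat.pow_le_pow_right (by norm_num)
  rw [mul_comm]
  exact (sum_pow_level t0 R n).trans_eq (by ring)

theorem support_UU (t0 R n : ℕ) (D : Finset ℕ) (hD : D ⊆ PP t0 n) (hne : UU t0 R n D ≠ 0) :
    ∏ q ∈ D, q ≤ (2 ^ 2 ^ (t0 + n)) ^ (4 * R + 10) := by
  refine (support_Uw (Bl t0) (rr R n) (fun i => 2 ^ 2 ^ (t0 + i + 1)) (fun i q hq => by
    simp only [Bl, Finset.mem_filter, Finset.mem_Ioc] at hq
    exact hq.1.2) (fun i => Nat.one_le_two_pow) n D (by rwa [PiU_Bl]) hne).trans ?_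
  exact prod_level t0 R n

theorem support_LL (t0 R n : ℕ) (D : Finset ℕ) (hD : D ⊆ PP t0 n) (hne : LL t0 R n D ≠ 0) :
    ∏ q ∈ D, q ≤ (2 ^ 2 ^ (t0 + n)) ^ (4 * R + 10) := by
  refine (support_Lw (Bl t0) (rr R n) (fun i => 2 ^ 2 ^ (t0 + i + 1)) (fun i q hq => by
    simp only [Bl, Finset.mem_filter, Finset.mem_Ioc] at hq
    exact hq.1.2) (fun i => Nat.one_le_two_pow) n D (by rwa [PiU_Bl]) hne).trans ?_
  exact prod_level t0 R n

/-- upper bound for the mean of the upper weights -/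
theorem mean_upper (Pr : ℕ → Finset ℕ) (r : ℕ → ℕ) (hdis : ∀ t, Disjoint (PiU Pr t) (Pr t))
    (hr : ∀ t, Even (r t)) (h : ℕ → ℝ)
    (h0 : ∀ q, 0 ≤ h q) (h1 : ∀ q, h q ≤ 1) (v : ℝ) (hv : 0 < v)
    (hV : ∀ t, v ≤ ∏ q ∈ Pr t, (1 - h q)) (T : ℕ) (ε : ℕ → ℝ) (hε0 : ∀ t, 0 ≤ ε t)
    (hε : ∀ t < T, es (Pr t) h (r t + 1) ≤ ε t * v) (t : ℕ) (ht : t ≤ T) :
    ev (Uw Pr r t) (PiU Pr t) h ≤
      (∏ q ∈ PiU Pr t, (1 - h q)) * ∏ i ∈ Finset.range t, (1 + ε i) := by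
  classical
  induction t with
  | zero =>
    rw [ev_zero]
    simp [Uw, PiU]
  | succ t ih =>
    have ih := ih (by omega)
    rw [ev_Uw_succ Pr r hdis]
    have hb := bonferroni (Pr t) h h0 h1
    have hA1 := hb.2 (r t + 1) ((hr t).add_one)
    rw [tr_succ] at hA1
    have hodd : (-1 : ℝ) ^ (r t + 1) = -1 := ((hr t).add_one).neg_one_pow
    rw [hodd] at hA1
    have hC := hε t (by omega)
    have hA : tr (Pr t) h (r t) ≤ (∏ q ∈ Pr t, (1 - h q)) * (1 + ε t) := by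
      have h2 : ε t * v ≤ ε t * ∏ q ∈ Pr t, (1 - h q) :=
        mul_le_mul_of_nonneg_left (hV t) (hε0 t)
      nlinarith
    have hA0 : 0 ≤ tr (Pr t) h (r t) := by
      refine le_trans ?_ (hb.1 (r t) (hr t))
      exact hv.le.trans (hV t)
    have hprod : ∏ q ∈ PiU Pr (t + 1), (1 - h q) =
        (∏ q ∈ PiU Pr t, (1 - h q)) * ∏ q ∈ Pr t, (1 - h q) := by
      rw [PiU_succ, Finset.prod_union (hdis t)]
    rw [hprod, Finset.prod_range_succ]
    calc ev (Uw Pr r t) (PiU Pr t) h * tr (Pr t) h (r t) ≤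
        ((∏ q ∈ PiU Pr t, (1 - h q)) * ∏ i ∈ Finset.range t, (1 + ε i)) *
          ((∏ q ∈ Pr t, (1 - h q)) * (1 + ε t)) := by
          apply mul_le_mul ih hA hA0
          apply mul_nonneg
          · exact Finset.prod_nonneg (fun q _ => by linarith [h1 q])
          · exact Finset.prod_nonneg (fun i _ => by linarith [hε0 i])
      _ = _ := by ring

theorem one_add_prod_le (ε : ℕ → ℝ) (hε0 : ∀ t, 0 ≤ ε t) (n : ℕ)
    (hs : ∑ i ∈ Finset.range n, ε i ≤ 1 / 2) :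
    ∏ i ∈ Finset.range n, (1 + ε i) ≤ 1 + 2 * ∑ i ∈ Finset.range n, ε i := by
  induction n with
  | zero => simp
  | succ n ih =>
    rw [Finset.sum_range_succ] at hs ⊢
    have h0 : 0 ≤ ∑ i ∈ Finset.range n, ε i := Finset.sum_nonneg (fun i _ => hε0 i)
    have h1 := ih (by linarith [hε0 n])
    rw [Finset.prod_range_succ]
    have h2 : (∏ i ∈ Finset.range n, (1 + ε i)) * (1 + ε n) ≤
        (1 + 2 * ∑ i ∈ Finset.range n, ε i) * (1 + ε n) :=
      mul_le_mul_of_nonneg_right h1 (by linarith [hε0 n])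
    nlinarith [hε0 n]

theorem sum_quarter (n : ℕ) (δ : ℝ) (hδ : 0 ≤ δ) :
    ∑ i ∈ Finset.range n, δ * (1 / 4 : ℝ) ^ (n - i) ≤ δ := by
  have h1 : ∀ n : ℕ, ∑ i ∈ Finset.range n, (1 / 4 : ℝ) ^ (n - i) ≤ 1 / 3 := by
    intro n
    induction n with
    | zero => norm_num
    | succ n ih =>
      rw [Finset.sum_range_succ]
      have h2 : ∑ i ∈ Finset.range n, (1 / 4 : ℝ) ^ (n + 1 - i) =
          (1 / 4) * ∑ i ∈ Finset.range n, (1 / 4 : ℝ) ^ (n - i) := by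
        rw [Finset.mul_sum]
        apply Finset.sum_congr rfl
        intro i hi
        rw [Finset.mem_range] at hi
        rw [show n + 1 - i = (n - i) + 1 by omega, pow_succ]
        ring
      rw [h2, show n + 1 - n = 1 by omega]
      linarith
  rw [← Finset.mul_sum]
  nlinarith [h1 n]

/-- choice of the truncation parameter -/
theorem exists_R (C v δ : ℝ) (hC : 0 ≤ C) (hv : 0 < v) (hδ : 0 < δ) :
    ∃ R : ℕ, ∀ j : ℕ, C ^ (2 * j + 2 * R + 1) / ((2 * j + 2 * R + 1).factorial : ℝ) ≤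
      δ * (1 / 4) ^ j * v := by
  have h1 := FloorSemiring.tendsto_pow_div_factorial_atTop C
  have h2 := (h1.eventually (gt_mem_nhds (mul_pos hδ hv)))
  obtain ⟨m0, hm0⟩ := Filter.eventually_atTop.1 h2
  obtain ⟨m1, hm1⟩ := exists_nat_ge (2 * C)
  refine ⟨m0 + m1, fun j => ?_⟩
  set m := 2 * (m0 + m1) + 1 with hm
  have h3 : C ^ m / (m.factorial : ℝ) < δ * v := hm0 m (by omega)
  have h4 : (m.factorial : ℝ) * ((m : ℝ) + 1) ^ (2 * j) ≤ ((m + 2 * j).factorial : ℝ) := by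
    exact_mod_cast Nat.factorial_mul_pow_le_factorial (m := m) (n := 2 * j)
  have hmC : 2 * C ≤ (m : ℝ) + 1 := by
    have : (m1 : ℝ) ≤ (m : ℝ) := by
      have : m1 ≤ m := by omega
      exact_mod_cast this
    linarith
  have hf : (0 : ℝ) < (m.factorial : ℝ) := by exact_mod_cast Nat.factorial_pos _
  have hf2 : (0 : ℝ) < ((m + 2 * j).factorial : ℝ) := by exact_mod_cast Nat.factorial_pos _
  have e1 : 2 * j + 2 * (m0 + m1) + 1 = m + 2 * j := by omega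
  rw [e1]
  rw [div_le_iff₀ hf2]
  rw [div_lt_iff₀ hf] at h3
  have h5 : (2 * C) ^ (2 * j) ≤ ((m : ℝ) + 1) ^ (2 * j) :=
    pow_le_pow_left₀ (by positivity) hmC _
  have h6 : (1 / 4 : ℝ) ^ j * (2 * C) ^ (2 * j) = C ^ (2 * j) := by
    rw [pow_mul, ← mul_pow, pow_mul]
    congr 1
    ring
  calc C ^ (m + 2 * j) = C ^ m * C ^ (2 * j) := pow_add _ _ _
    _ ≤ (δ * v * m.factorial) * C ^ (2 * j) :=
        mul_le_mul_of_nonneg_right h3.le (by positivity)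
    _ = (δ * v * m.factorial) * ((1 / 4 : ℝ) ^ j * (2 * C) ^ (2 * j)) := by rw [h6]
    _ ≤ (δ * v * m.factorial) * ((1 / 4 : ℝ) ^ j * ((m : ℝ) + 1) ^ (2 * j)) := by
        apply mul_le_mul_of_nonneg_left _ (by positivity)
        exact mul_le_mul_of_nonneg_left h5 (by positivity)
    _ = δ * (1 / 4) ^ j * v * ((m.factorial : ℝ) * ((m : ℝ) + 1) ^ (2 * j)) := by ring
    _ ≤ _ := mul_le_mul_of_nonneg_left h4 (by positivity)

private lemma fl_a52 {δ ε V : ℝ} (h0 : 0 < δ) (h : 2 * δ ≤ ε) (hV : 0 ≤ V) :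
    (1 - ε) * V ≤ (1 - δ) * V :=
  mul_le_mul_of_nonneg_right (by linarith) hV

private lemma fl_b52 {δ V E : ℝ} (h1 : δ ≤ 1 / 2) (h : V ≤ E) : (1 - δ) * V ≤ E * (1 - δ) := by
  rw [mul_comm E]
  exact mul_le_mul_of_nonneg_left h (by linarith)

private lemma fl_c52 {δ ε S P V : ℝ} (h1 : P ≤ 1 + 2 * S) (hS : S ≤ δ) (h : 2 * δ ≤ ε)
    (hV : 0 ≤ V) : V * P ≤ (1 + ε) * V := by
  rw [mul_comm V]
  exact mul_le_mul_of_nonneg_right (by linarith) hV

/-- **Fundamental lemma.** -/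
theorem fundamental (κ ε : ℝ) (hε : 0 < ε) : ∃ R t1 : ℕ, 0 < t1 ∧ 2 * κ ≤ 2 ^ 2 ^ t1 ∧
    ∀ t0 n : ℕ, t1 ≤ t0 → ∀ h : ℕ → ℝ, (∀ q ∈ PP t0 n, 0 ≤ h q) →
      (∀ q ∈ PP t0 n, h q ≤ κ / q) →
      (1 - ε) * ∏ q ∈ PP t0 n, (1 - h q) ≤ ev (LL t0 R n) (PP t0 n) h ∧
      ev (LL t0 R n) (PP t0 n) h ≤ ∏ q ∈ PP t0 n, (1 - h q) ∧
      ∏ q ∈ PP t0 n, (1 - h q) ≤ ev (UU t0 R n) (PP t0 n) h ∧
      ev (UU t0 R n) (PP t0 n) h ≤ (1 + ε) * ∏ q ∈ PP t0 n, (1 - h q) := by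
  classical
  set K : ℝ := max κ 1 with hK
  have hK1 : 1 ≤ K := le_max_right _ _
  have hKκ : κ ≤ K := le_max_left _ _
  set v : ℝ := Real.exp (-(6 * K)) with hv
  have hv0 : 0 < v := Real.exp_pos _
  set δ : ℝ := min ε 1 / 2 with hδ
  have hδ0 : 0 < δ := by
    have : 0 < min ε 1 := lt_min hε one_pos
    linarith
  have hδ1 : δ ≤ 1 / 2 := by
    have : min ε 1 ≤ 1 := min_le_right _ _
    linarith
  have hδε : 2 * δ ≤ ε := by
    have : min ε 1 ≤ ε := min_le_left _ _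
    linarith
  obtain ⟨R, hR⟩ := exists_R (3 * K) v δ (by linarith) hv0 hδ0
  obtain ⟨t1, ht1⟩ := exists_nat_ge (2 * K)
  have hbig : ∀ t : ℕ, t < 2 ^ 2 ^ t := fun t =>
    lt_of_lt_of_le Nat.lt_two_pow_self (Nat.pow_le_pow_right (by norm_num)
      Nat.lt_two_pow_self.le)
  have hbigR : ∀ t : ℕ, t1 ≤ t → 2 * K ≤ ((2 ^ 2 ^ t : ℕ) : ℝ) := by
    intro t ht
    refine ht1.trans ?_
    have : t1 ≤ 2 ^ 2 ^ t := ht.trans (hbig t).le
    exact_mod_cast this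
  have ht1pos : 0 < t1 := by
    by_contra hcon
    have : t1 = 0 := by omega
    rw [this] at ht1
    norm_num at ht1
    linarith
  refine ⟨R, t1, ht1pos, ?_, ?_⟩
  · have := hbigR t1 le_rfl
    push_cast at this
    linarith
  intro t0 n ht0 h h0 h1
  set g : ℕ → ℝ := fun q => if q ∈ PP t0 n then h q else 0 with hg
  have hgv : ∀ w : Finset ℕ → ℝ, ev w (PP t0 n) h = ev w (PP t0 n) g := by
    intro w
    unfold ev
    apply Finset.sum_congr rfl
    intro D hD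
    rw [Finset.mem_powerset] at hD
    congr 1
    apply Finset.prod_congr rfl
    intro q hq
    simp [hg, hD hq]
  have hgp : ∏ q ∈ PP t0 n, (1 - h q) = ∏ q ∈ PP t0 n, (1 - g q) := by
    apply Finset.prod_congr rfl
    intro q hq
    simp [hg, hq]
  have hPPq : ∀ q ∈ PP t0 n, 2 * K ≤ (q : ℝ) := by
    intro q hq
    simp only [PP, Finset.mem_filter, Finset.mem_Ioc] at hq
    refine (hbigR t0 ht0).trans ?_
    exact_mod_cast hq.1.1.le
  have g0 : ∀ q, 0 ≤ g q := by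
    intro q
    simp only [hg]
    split_ifs with hq
    · exact h0 q hq
    · exact le_rfl
  have g1 : ∀ q, g q ≤ K / q := by
    intro q
    simp only [hg]
    split_ifs with hq
    · refine (h1 q hq).trans ?_
      exact div_le_div_of_nonneg_right hKκ (by positivity)
    · positivity
  have ghalf : ∀ q, g q ≤ 1 / 2 := by
    intro q
    by_cases hq : q ∈ PP t0 n
    · refine (g1 q).trans ?_
      have h2 := hPPq q hq
      rw [div_le_iff₀ (by linarith)]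
      linarith
    · simp only [hg, if_neg hq]
      norm_num
  have gle1 : ∀ q, g q ≤ 1 := fun q => (ghalf q).trans (by norm_num)
  have hsum : ∀ i, ∑ q ∈ Bl t0 i, g q ≤ 3 * K := by
    intro i
    calc ∑ q ∈ Bl t0 i, g q ≤ ∑ q ∈ Bl t0 i, K * (1 / (q : ℝ)) := by
          apply Finset.sum_le_sum
          intro q _
          rw [mul_one_div]
          exact g1 q
      _ = K * ∑ q ∈ Bl t0 i, (1 / (q : ℝ)) := by rw [Finset.mul_sum]
      _ ≤ K * 3 := mul_le_mul_of_nonneg_left (sum_Bl_le t0 i (by omega)) (by linarith)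
      _ = 3 * K := by ring
  have hV : ∀ i, v ≤ ∏ q ∈ Bl t0 i, (1 - g q) := by
    intro i
    calc v ≤ Real.exp (∑ q ∈ Bl t0 i, -(2 * g q)) := by
          apply Real.exp_le_exp.2
          rw [Finset.sum_neg_distrib, ← Finset.mul_sum]
          linarith [hsum i]
      _ = ∏ q ∈ Bl t0 i, Real.exp (-(2 * g q)) := Real.exp_sum _ _
      _ ≤ ∏ q ∈ Bl t0 i, (1 - g q) := by
          apply Finset.prod_le_prod
          · intro q _; exact (Real.exp_pos _).le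
          · intro q _
            exact one_sub_ge_exp _ (g0 q) (ghalf q)
  have hes : ∀ i < n, es (Bl t0 i) g (rr R n i + 1) ≤ (δ * (1 / 4) ^ (n - i)) * v := by
    intro i _
    refine (es_le (Bl t0 i) g g0 _).trans ?_
    have e1 : rr R n i + 1 = 2 * (n - i) + 2 * R + 1 := by unfold rr; ring
    rw [e1]
    refine le_trans ?_ (hR (n - i))
    apply div_le_div_of_nonneg_right _ (by positivity)
    exact pow_le_pow_left₀ (Finset.sum_nonneg (fun q _ => g0 q)) (hsum i) _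
  have hev0 : ∀ i, 0 ≤ δ * (1 / 4 : ℝ) ^ (n - i) := fun i => by positivity
  have hsε := sum_quarter n δ hδ0.le
  have hlow := mean_lower (Bl t0) (rr R n) (Bl_disjoint t0) (even_rr R n) g g0 gle1 v hv0 hV n
    (fun i => δ * (1 / 4) ^ (n - i)) hes n le_rfl
  have hup := mean_upper (Bl t0) (rr R n) (Bl_disjoint t0) (even_rr R n) g g0 gle1 v hv0 hV n
    (fun i => δ * (1 / 4) ^ (n - i)) hev0 hes n le_rfl
  have hpw := pointwise t0 R n g (fun q _ => g0 q) (fun q _ => gle1 q)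
  rw [PiU_Bl] at hlow hup
  rw [hgv, hgv, hgp]
  set V := ∏ q ∈ PP t0 n, (1 - g q) with hVdef
  have hV0 : 0 ≤ V := Finset.prod_nonneg (fun q _ => by linarith [gle1 q])
  have hprod := one_add_prod_le (fun i => δ * (1 / 4) ^ (n - i)) hev0 n (hsε.trans hδ1)
  refine ⟨?_, hpw.1, hpw.2, ?_⟩
  · have h2 : (1 - ε) * V ≤ (1 - δ) * V := fl_a52 hδ0 hδε hV0
    have h3 : (1 - δ) * V ≤ ev (Uw (Bl t0) (rr R n) n) (PP t0 n) g * (1 - δ) :=
      fl_b52 hδ1 hpw.2
    have h4 : ev (Uw (Bl t0) (rr R n) n) (PP t0 n) g * (1 - δ) ≤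
        ev (Uw (Bl t0) (rr R n) n) (PP t0 n) g *
          (1 - ∑ i ∈ Finset.range n, δ * (1 / 4 : ℝ) ^ (n - i)) := by
      apply mul_le_mul_of_nonneg_left _ (hV0.trans hpw.2)
      exact sub_le_sub_left hsε 1
    exact h2.trans (h3.trans (h4.trans hlow.2))
  · have h2 : V * ∏ i ∈ Finset.range n, (1 + δ * (1 / 4 : ℝ) ^ (n - i)) ≤ (1 + ε) * V :=
      fl_c52 hprod hsε hδε hV0
    exact hup.trans h2

end Pool.Agent.Lib.MP_c6d112_nt.DO
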