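import Mathlib

namespace Pool.Agent.Lib.MP_c6d112_nt.DO

open Finset

/-- `Fw C z n = Π_{q | n, q > z} (1 + C / q)`. -/
noncomputable def Fw (C : ℝ) (z n : ℕ) : ℝ :=
  ∏ q ∈ n.primeFactors.filter (fun q => z < q), (1 + C / q)

theorem one_le_Fw {C : ℝ} (hC : 0 ≤ C) (z n : ℕ) : 1 ≤ Fw C z n := by
  unfold Fw
  have h : ∀ q ∈ n.primeFactors.filter (fun q => z < q), (1 : ℝ) ≤ 1 + C / q := by
    intro q _
    have : 0 ≤ C / (q : ℝ) := by positivity
    linarith
  calc (1 : ℝ) = ∏ _q ∈ n.primeFactors.filter (fun q => z < q), (1 : ℝ) := by simp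
    _ ≤ _ := Finset.prod_le_prod (fun _ _ => by norm_num) h

theorem Fw_nonneg {C : ℝ} (hC : 0 ≤ C) (z n : ℕ) : 0 ≤ Fw C z n :=
  le_trans zero_le_one (one_le_Fw hC z n)

theorem Fw_mono {C C' : ℝ} (hC : 0 ≤ C) (h : C ≤ C') (z n : ℕ) : Fw C z n ≤ Fw C' z n := by
  unfold Fw
  apply Finset.prod_le_prod
  · intro q _
    positivity
  · intro q _
    have : C / (q : ℝ) ≤ C' / q := by gcongr
    linarith

theorem one_add_pow_le (k : ℕ) (x : ℝ) (hx0 : 0 ≤ x) (hx1 : x ≤ 1) :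
    (1 + x) ^ k ≤ 1 + ((2 : ℝ) ^ k - 1) * x := by
  induction k with
  | zero => simp
  | succ k ih =>
    have h3 : (1 : ℝ) ≤ 2 ^ k := one_le_pow₀ (by norm_num)
    calc (1 + x) ^ (k + 1) = (1 + x) ^ k * (1 + x) := by ring
      _ ≤ (1 + ((2 : ℝ) ^ k - 1) * x) * (1 + x) := by
          apply mul_le_mul_of_nonneg_right ih (by linarith)
      _ = 1 + (2 : ℝ) ^ k * x + ((2 : ℝ) ^ k - 1) * (x * x) := by ring
      _ ≤ 1 + (2 : ℝ) ^ k * x + ((2 : ℝ) ^ k - 1) * x := by
          have : x * x ≤ x := by nlinarith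
          have h4 : 0 ≤ (2 : ℝ) ^ k - 1 := by linarith
          nlinarith
      _ = 1 + ((2 : ℝ) ^ (k + 1) - 1) * x := by ring

theorem Fw_pow_le {C : ℝ} (hC : 0 ≤ C) {z : ℕ} (hz : C ≤ z) (k n : ℕ) :
    Fw C z n ^ k ≤ Fw ((2 : ℝ) ^ k * C) z n := by
  unfold Fw
  rw [← Finset.prod_pow]
  apply Finset.prod_le_prod
  · intro q _
    positivity
  · intro q hq
    rw [Finset.mem_filter] at hq
    have hq0 : (0 : ℝ) < q := by
      have := (Nat.prime_of_mem_primeFactors hq.1).pos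
      exact_mod_cast this
    have h1 : C / q ≤ 1 := by
      rw [div_le_one hq0]
      have : (z : ℝ) < q := by exact_mod_cast hq.2
      linarith
    have h0 : 0 ≤ C / (q : ℝ) := by positivity
    have h3 := one_add_pow_le k (C / q) h0 h1
    calc (1 + C / (q : ℝ)) ^ k ≤ 1 + ((2 : ℝ) ^ k - 1) * (C / q) := h3
      _ ≤ 1 + (2 : ℝ) ^ k * (C / q) := by nlinarith
      _ = 1 + (2 : ℝ) ^ k * C / q := by ring

/-- number of multiples -/
theorem card_mult_le (H m : ℕ) :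
    (((Icc 1 H).filter (fun n => m ∣ n)).card : ℝ) ≤ H / m := by
  rcases Nat.eq_zero_or_pos m with rfl | hm
  · have : (Icc 1 H).filter (fun n => (0 : ℕ) ∣ n) = ∅ := by
      apply Finset.filter_eq_empty_iff.2
      intro n hn h
      rw [Finset.mem_Icc] at hn
      have := zero_dvd_iff.1 h
      omega
    rw [this]; simp
  · have h1 : ((Icc 1 H).filter (fun n => m ∣ n)).card = H / m := by
      have := Nat.Ioc_filter_dvd_card_eq_div H m
      rw [← this]
      congr 1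
    rw [h1]
    exact Nat.cast_div_le

theorem sum_Fw_le_prod {C : ℝ} (hC : 0 ≤ C) (z H : ℕ) :
    ∑ n ∈ Icc 1 H, Fw C z n ≤
      H * ∏ q ∈ (Icc 1 H).filter (fun q => q.Prime ∧ z < q), (1 + C / (q : ℝ) ^ 2) := by
  classical
  set P := (Icc 1 H).filter (fun q => q.Prime ∧ z < q) with hP
  have h1 : ∀ n ∈ Icc 1 H, Fw C z n =
      ∑ T ∈ P.powerset, if (∏ q ∈ T, q) ∣ n then ∏ q ∈ T, (C / (q : ℝ)) else 0 := by
    intro n hn
    rw [Finset.mem_Icc] at hn
    unfold Fw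
    have h2 : ∏ q ∈ n.primeFactors.filter (fun q => z < q), (1 + C / (q : ℝ)) =
        ∏ q ∈ n.primeFactors.filter (fun q => z < q), (C / (q : ℝ) + 1) := by
      apply Finset.prod_congr rfl; intro q _; ring
    rw [h2, Finset.prod_add_one]
    rw [← Finset.sum_filter]
    apply Finset.sum_congr _ (fun _ _ => rfl)
    ext T
    rw [Finset.mem_powerset, Finset.mem_filter, Finset.mem_powerset]
    constructor
    · intro hT
      constructor
      · intro q hq
        have := hT hq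
        rw [Finset.mem_filter, Nat.mem_primeFactors] at this
        rw [hP, Finset.mem_filter, Finset.mem_Icc]
        refine ⟨⟨this.1.1.pos, ?_⟩, this.1.1, this.2⟩
        exact le_trans (Nat.le_of_dvd (by omega) this.1.2.1) hn.2
      · apply Finset.prod_primes_dvd
        · intro q hq
          have := hT hq
          rw [Finset.mem_filter, Nat.mem_primeFactors] at this
          exact this.1.1.prime
        · intro q hq
          have := hT hq
          rw [Finset.mem_filter, Nat.mem_primeFactors] at this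
          exact this.1.2.1
    · rintro ⟨hT, hd⟩ q hq
      have h3 := hT hq
      rw [hP, Finset.mem_filter] at h3
      rw [Finset.mem_filter, Nat.mem_primeFactors]
      refine ⟨⟨h3.2.1, ?_, by omega⟩, h3.2.2⟩
      exact dvd_trans (Finset.dvd_prod_of_mem _ hq) hd
  rw [Finset.sum_congr rfl h1, Finset.sum_comm]
  have h2 : ∏ q ∈ P, (1 + C / (q : ℝ) ^ 2) = ∑ T ∈ P.powerset, ∏ q ∈ T, (C / (q : ℝ) ^ 2) := by
    rw [← Finset.prod_add_one]
    apply Finset.prod_congr rfl; intro q _; ring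
  rw [h2, Finset.mul_sum]
  apply Finset.sum_le_sum
  intro T hT
  rw [← Finset.sum_filter, Finset.sum_const, nsmul_eq_mul]
  have h3 := card_mult_le H (∏ q ∈ T, q)
  have h4 : 0 ≤ ∏ q ∈ T, (C / (q : ℝ)) := by
    apply Finset.prod_nonneg; intro q _; positivity
  calc (((Icc 1 H).filter (fun n => (∏ q ∈ T, q) ∣ n)).card : ℝ) * ∏ q ∈ T, (C / (q : ℝ))
      ≤ (H / ((∏ q ∈ T, q : ℕ) : ℝ)) * ∏ q ∈ T, (C / (q : ℝ)) :=
        mul_le_mul_of_nonneg_right h3 h4
    _ = H * ∏ q ∈ T, (C / (q : ℝ) ^ 2) := by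
        push_cast
        have h5 : ∏ q ∈ T, (C / (q : ℝ) ^ 2) = (∏ q ∈ T, (C / (q : ℝ))) / ∏ q ∈ T, (q : ℝ) := by
          rw [← Finset.prod_div_distrib]
          apply Finset.prod_congr rfl
          intro q _
          rw [div_div]; ring
        rw [h5]; ring

theorem sum_inv_sq_le (z : ℕ) (hz : 1 ≤ z) (S : Finset ℕ) (hS : ∀ q ∈ S, z < q) :
    ∑ q ∈ S, 1 / (q : ℝ) ^ 2 ≤ 1 / (z : ℝ) := by
  have h1 : ∀ q ∈ S, 1 / (q : ℝ) ^ 2 ≤ 1 / ((q : ℝ) - 1) - 1 / q := by
    intro q hq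
    have h2 : (2 : ℝ) ≤ q := by
      have := hS q hq
      exact_mod_cast (by omega : 2 ≤ q)
    have h3 : (0 : ℝ) < (q : ℝ) - 1 := by linarith
    have h4 : (0 : ℝ) < q := by linarith
    rw [div_sub_div _ _ (ne_of_gt h3) (ne_of_gt h4), div_le_div_iff₀ (by positivity) (by positivity)]
    nlinarith
  set M := S.sup id with hM
  have hS2 : S ⊆ Ioc z M := by
    intro q hq
    rw [Finset.mem_Ioc]
    exact ⟨hS q hq, Finset.le_sup (f := id) hq⟩
  have h5 : ∀ q ∈ Ioc z M, 0 ≤ 1 / ((q : ℝ) - 1) - 1 / q := by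
    intro q hq
    rw [Finset.mem_Ioc] at hq
    have h2 : (2 : ℝ) ≤ q := by exact_mod_cast (by omega : 2 ≤ q)
    have h3 : (0 : ℝ) < (q : ℝ) - 1 := by linarith
    rw [sub_nonneg]
    apply one_div_le_one_div_of_le h3 (by linarith)
  calc ∑ q ∈ S, 1 / (q : ℝ) ^ 2 ≤ ∑ q ∈ S, (1 / ((q : ℝ) - 1) - 1 / q) := Finset.sum_le_sum h1
    _ ≤ ∑ q ∈ Ioc z M, (1 / ((q : ℝ) - 1) - 1 / q) :=
        Finset.sum_le_sum_of_subset_of_nonneg hS2 (fun q hq _ => h5 q hq)
    _ ≤ 1 / z := by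
        rcases le_or_gt z M with hzM | hzM
        · have key : ∀ M : ℕ, z ≤ M → ∑ q ∈ Ioc z M, (1 / ((q : ℝ) - 1) - 1 / q) = 1 / z - 1 / M := by
            intro M hM
            induction M, hM using Nat.le_induction with
            | base => simp
            | succ M hM ih =>
              rw [← Finset.insert_Ioc_right_eq_Ioc_add_one (by omega), Finset.sum_insert (by simp), ih]
              push_cast; ring
          rw [key M hzM]
          have : (0 : ℝ) ≤ 1 / (M : ℝ) := by positivity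
          linarith
        · rw [Finset.Ioc_eq_empty_of_le hzM.le]; simp

/-- average of the singular series -/
theorem exists_avg (C : ℝ) (hC : 0 ≤ C) (ε : ℝ) (hε : 0 < ε) :
    ∃ z0 : ℕ, 1 ≤ z0 ∧ C ≤ z0 ∧ ∀ z ≥ z0, ∀ H : ℕ, ∑ n ∈ Icc 1 H, Fw C z n ≤ (1 + ε) * H := by
  -- exp (C / z) ≤ 1 + ε
  have hlog : 0 < Real.log (1 + ε) := Real.log_pos (by linarith)
  obtain ⟨z0, hz0⟩ := exists_nat_ge (max (max 1 C) (C / Real.log (1 + ε)))
  refine ⟨z0, ?_, ?_, ?_⟩
  · have : (1 : ℝ) ≤ z0 := le_trans (le_trans (le_max_left _ _) (le_max_left _ _)) hz0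
    exact_mod_cast this
  · exact le_trans (le_trans (le_max_right _ _) (le_max_left _ _)) hz0
  intro z hz H
  have hz1 : (1 : ℝ) ≤ z := by
    have h1 : (1 : ℝ) ≤ z0 := le_trans (le_trans (le_max_left _ _) (le_max_left _ _)) hz0
    have h2 : (z0 : ℝ) ≤ z := by exact_mod_cast hz
    linarith
  have hz2 : C / Real.log (1 + ε) ≤ z := by
    have h2 : (z0 : ℝ) ≤ z := by exact_mod_cast hz
    exact le_trans (le_trans (le_max_right _ _) hz0) h2
  refine le_trans (sum_Fw_le_prod hC z H) ?_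
  rw [mul_comm]
  apply mul_le_mul_of_nonneg_right _ (Nat.cast_nonneg H)
  set P := (Icc 1 H).filter (fun q => q.Prime ∧ z < q) with hP
  have h1 : ∏ q ∈ P, (1 + C / (q : ℝ) ^ 2) ≤ Real.exp (∑ q ∈ P, C / (q : ℝ) ^ 2) := by
    rw [Real.exp_sum]
    apply Finset.prod_le_prod
    · intro q _; positivity
    · intro q _
      rw [add_comm]
      exact Real.add_one_le_exp _
  refine le_trans h1 ?_
  have h2 : ∑ q ∈ P, C / (q : ℝ) ^ 2 ≤ C / z := by
    have h3 := sum_inv_sq_le z (by exact_mod_cast hz1) P (by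
      intro q hq
      rw [hP, Finset.mem_filter] at hq
      exact hq.2.2)
    have h4 : ∑ q ∈ P, C / (q : ℝ) ^ 2 = C * ∑ q ∈ P, 1 / (q : ℝ) ^ 2 := by
      rw [Finset.mul_sum]
      apply Finset.sum_congr rfl; intro q _; ring
    rw [h4]
    calc C * ∑ q ∈ P, 1 / (q : ℝ) ^ 2 ≤ C * (1 / z) := mul_le_mul_of_nonneg_left h3 hC
      _ = C / z := by ring
  have h3 : C / z ≤ Real.log (1 + ε) := by
    rw [div_le_iff₀ (by linarith)]
    rw [div_le_iff₀ hlog] at hz2
    linarith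
  calc Real.exp (∑ q ∈ P, C / (q : ℝ) ^ 2) ≤ Real.exp (Real.log (1 + ε)) :=
        Real.exp_le_exp.2 (le_trans h2 h3)
    _ = 1 + ε := Real.exp_log (by linarith)

end Pool.Agent.Lib.MP_c6d112_nt.DO
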